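import Pool.Agent.Q111.KU.Stm

/-!
# Project KU: I1, P0 and A (rigidity)
-/

set_option autoImplicit false

namespace Pool.Agent.Q111.KU

open Finset

theorem t_I1 : S_I1 := by
  intro V _ A θ h
  have h1 := h (fun i => Real.cos (θ i))
  have h2 := h (fun i => Real.sin (θ i))
  unfold Ineq
  have h3 : ∑ i, ∑ j, A i j * (Real.cos (θ i - θ j) - Real.cos (θ i - θ j) ^ 2) =
      (1 / 2) * (∑ i, ∑ j, A i j * Real.cos (θ i - θ j) * (Real.cos (θ i) - Real.cos (θ j)) ^ 2 +
        ∑ i, ∑ j, A i j * Real.cos (θ i - θ j) * (Real.sin (θ i) - Real.sin (θ j)) ^ 2) := by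
    rw [← Finset.sum_add_distrib, Finset.mul_sum]
    refine Finset.sum_congr rfl fun i _ => ?_
    rw [← Finset.sum_add_distrib, Finset.mul_sum]
    refine Finset.sum_congr rfl fun j _ => ?_
    have e : Real.cos (θ i - θ j) = Real.cos (θ i) * Real.cos (θ j) + Real.sin (θ i) * Real.sin (θ j) :=
      Real.cos_sub _ _
    have e1 := Real.sin_sq_add_cos_sq (θ i)
    have e2 := Real.sin_sq_add_cos_sq (θ j)
    linear_combination (-A i j * Real.cos (θ i - θ j)) * e - (A i j * Real.cos (θ i - θ j) / 2) * e1 -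
      (A i j * Real.cos (θ i - θ j) / 2) * e2
  rw [h3]
  linarith

theorem t_P0 : S_P0 := by
  intro z
  have h1 : z * Real.sin z ≤ z ^ 2 := by
    have h2 := abs_mul z (Real.sin z)
    have h3 : |Real.sin z| ≤ |z| := Real.abs_sin_le_abs
    calc z * Real.sin z ≤ |z * Real.sin z| := le_abs_self _
      _ = |z| * |Real.sin z| := h2
      _ ≤ |z| * |z| := mul_le_mul_of_nonneg_left h3 (abs_nonneg z)
      _ = z ^ 2 := by rw [← abs_mul, ← pow_two, abs_sq]
  have h2 : Real.cos z - Real.cos z ^ 2 ≤ z ^ 2 / 2 := by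
    have h3 := Real.one_sub_sq_div_two_le_cos (x := z)
    have h4 := Real.cos_le_one z
    by_cases hc : 0 ≤ Real.cos z
    · nlinarith
    · push Not at hc
      nlinarith [sq_nonneg z]
  linarith

section

variable {V : Type} [Fintype V]

/-- the indicator of a class difference -/
noncomputable def Pc (a : V → ℤ) (c : ZMod 4) (i j : V) : ℝ :=
  if (a j : ZMod 4) = (a i : ZMod 4) + c then 1 else 0

omit [Fintype V] in
lemma Pc_nonneg (a : V → ℤ) (c : ZMod 4) (i j : V) : 0 ≤ Pc a c i j := by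
  unfold Pc
  split_ifs <;> norm_num

/-- the angle between two points -/
lemma angle {t s z : ℝ} {p q : ℤ} (c : ℕ) (h : (q : ZMod 4) = (p : ZMod 4) + (c : ZMod 4))
    (hts : t - s = -(((q : ℝ) - p) * (Real.pi / 2) + z)) :
    Real.cos (t - s) = Real.cos (z + c * (Real.pi / 2)) ∧
      Real.sin (t - s) = - Real.sin (z + c * (Real.pi / 2)) := by
  have h1 : ((q - p - c : ℤ) : ZMod 4) = 0 := by
    push_cast
    rw [h]
    ring
  rw [ZMod.intCast_zmod_eq_zero_iff_dvd] at h1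
  obtain ⟨m, hm⟩ := h1
  have h2 : (q : ℝ) - p = c + 4 * m := by
    have : (q : ℤ) = p + c + 4 * m := by push_cast at hm; linarith
    rw [this]
    push_cast
    ring
  have h3 : t - s = -(z + c * (Real.pi / 2)) + ((-m : ℤ) : ℝ) * (2 * Real.pi) := by
    rw [hts, h2]
    push_cast
    ring
  rw [h3, Real.cos_add_int_mul_two_pi, Real.sin_add_int_mul_two_pi, Real.cos_neg, Real.sin_neg]
  exact ⟨rfl, rfl⟩

/-- the summand -/
noncomputable def hh (θ x : V → ℝ) (i j : V) : ℝ :=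
  Real.cos (θ i - θ j) - Real.cos (θ i - θ j) ^ 2 + (x i - x j) * Real.sin (θ i - θ j)

lemma sum_hh (A : V → V → ℝ) (θ x : V → ℝ) (hA : IsA A) (hE : Equi A θ) (hI : Ineq A θ) :
    0 ≤ ∑ i, ∑ j, A i j * hh θ x i j := by
  have h1 : ∑ i, ∑ j, A i j * (x i * Real.sin (θ i - θ j)) = 0 := by
    refine Finset.sum_eq_zero fun i _ => ?_
    have e := hE i
    have : ∑ j, A i j * (x i * Real.sin (θ i - θ j)) = -x i * ∑ j, A i j * Real.sin (θ j - θ i) := by
      rw [Finset.mul_sum]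
      refine Finset.sum_congr rfl fun j _ => ?_
      rw [← neg_sub (θ j) (θ i), Real.sin_neg]
      ring
    rw [this, e, mul_zero]
  have h2 : ∑ i, ∑ j, A i j * (x j * Real.sin (θ i - θ j)) = 0 := by
    rw [Finset.sum_comm]
    refine Finset.sum_eq_zero fun j _ => ?_
    have e := hE j
    have : ∑ i, A i j * (x j * Real.sin (θ i - θ j)) = x j * ∑ i, A j i * Real.sin (θ i - θ j) := by
      rw [Finset.mul_sum]
      refine Finset.sum_congr rfl fun i _ => ?_
      rw [hA.symm i j]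
      ring
    rw [this, e, mul_zero]
  have h3 : ∑ i, ∑ j, A i j * hh θ x i j =
      ∑ i, ∑ j, A i j * (Real.cos (θ i - θ j) - Real.cos (θ i - θ j) ^ 2) +
      (∑ i, ∑ j, A i j * (x i * Real.sin (θ i - θ j)) -
        ∑ i, ∑ j, A i j * (x j * Real.sin (θ i - θ j))) := by
    rw [← Finset.sum_sub_distrib, ← Finset.sum_add_distrib]
    refine Finset.sum_congr rfl fun i _ => ?_
    rw [← Finset.sum_sub_distrib, ← Finset.sum_add_distrib]
    refine Finset.sum_congr rfl fun j _ => ?_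
    unfold hh
    ring
  rw [h3, h1, h2]
  unfold Ineq at hI
  linarith

/-- the upper bound of a summand -/
noncomputable def bd (A : V → V → ℝ) (a : V → ℤ) (x : V → ℝ) (i j : V) : ℝ :=
  Pc a 0 i j * (3 / 2 * (x j - x i) ^ 2) - 77 / 100 * ((Pc a 1 i j + Pc a 3 i j) * (x j - x i) ^ 2) +
    Pc a 1 i j * (kk (x j) - kk (x i)) + Pc a 3 i j * (kk (x i) - kk (x j)) -
    12 / 5 * (Pc a 2 i j * (x i ^ 2 + x j ^ 2)) + 12 / 5 * ((1 - A i j) * (x i ^ 2 + x j ^ 2)) -
    1 / 20 * (A i j * Pc a 2 i j) + 3600 * (x i ^ 2 * x j ^ 2) +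
    2 * (|x i| * |x j| * (|x i| + |x j|))

omit [Fintype V] in
lemma hh_le_bd (h0 : S_P0) (h1 : S_P1) (h2 : S_P2) (A : V → V → ℝ) (hA : IsA A) (θ x : V → ℝ)
    (φ : ℝ) (a : V → ℤ) (hθ : ∀ k, θ k = φ + a k * (Real.pi / 2) + x k) (hx : ∀ k, |x k| ≤ 4 / 5)
    (i j : V) : A i j * hh θ x i j ≤ bd A a x i j := by
  have hz : θ i - θ j = -(((a j : ℝ) - a i) * (Real.pi / 2) + (x j - x i)) := by
    rw [hθ i, hθ j]
    ring
  have hQ : 0 ≤ x i ^ 2 + x j ^ 2 := by positivity
  have hW : 0 ≤ x i ^ 2 * x j ^ 2 := by positivity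
  have hX : 0 ≤ |x i| * |x j| * (|x i| + |x j|) := by positivity
  have hcase : ∀ d : ZMod 4, d = 0 ∨ d = 1 ∨ d = 2 ∨ d = 3 := by decide
  have n01 : (0 : ZMod 4) ≠ 1 := by decide
  have n02 : (0 : ZMod 4) ≠ 2 := by decide
  have n03 : (0 : ZMod 4) ≠ 3 := by decide
  have n12 : (1 : ZMod 4) ≠ 2 := by decide
  have n13 : (1 : ZMod 4) ≠ 3 := by decide
  have n23 : (2 : ZMod 4) ≠ 3 := by decide
  have hP : ∀ c d : ZMod 4, (a j : ZMod 4) = (a i : ZMod 4) + d → c = d → Pc a c i j = 1 := by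
    intro c d h e
    unfold Pc
    rw [if_pos (by rw [h, e])]
  have hN : ∀ c d : ZMod 4, (a j : ZMod 4) = (a i : ZMod 4) + d → c ≠ d → Pc a c i j = 0 := by
    intro c d h e
    unfold Pc
    rw [if_neg]
    rw [h]
    intro h'
    exact e (add_left_cancel h').symm
  obtain ⟨d, hd⟩ : ∃ d : ZMod 4, (a j : ZMod 4) = (a i : ZMod 4) + d := ⟨_, (add_sub_cancel _ _).symm⟩
  rcases hcase d with rfl | rfl | rfl | rfl
  · obtain ⟨e1, e2⟩ := angle 0 (by simpa using hd) hz
    simp only [Nat.cast_zero, zero_mul, add_zero] at e1 e2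
    unfold bd hh
    rw [e1, e2, hP 0 0 hd rfl, hN 1 0 hd n01.symm, hN 2 0 hd n02.symm, hN 3 0 hd n03.symm]
    have b := h0 (x j - x i)
    have bq := sq_nonneg (x j - x i)
    rcases hA.val i j with hv | hv <;> rw [hv] <;> linarith
  · obtain ⟨e1, e2⟩ := angle 1 (by simpa using hd) hz
    simp only [Nat.cast_one, one_mul, Real.cos_add_pi_div_two, Real.sin_add_pi_div_two] at e1 e2
    unfold bd hh
    rw [e1, e2, hP 1 1 hd rfl, hN 0 1 hd n01, hN 2 1 hd n12.symm, hN 3 1 hd n13.symm]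
    have b := h1 (x i) (x j) (hx i) (hx j)
    have b' := (h2 (x i) (x j) (hx i) (hx j)).1
    have e3 : kk (x j - x i) = (x j - x i) * Real.cos (x j - x i) - Real.sin (x j - x i) := rfl
    rcases hA.val i j with hv | hv <;> rw [hv] <;> linarith
  · obtain ⟨e1, e2⟩ := angle 2 (by simpa using hd) hz
    have e4 : ((2 : ℕ) : ℝ) * (Real.pi / 2) = Real.pi := by push_cast; ring
    rw [e4, Real.cos_add_pi] at e1
    rw [e4, Real.sin_add_pi] at e2
    unfold bd hh
    rw [e1, e2, hP 2 2 hd rfl, hN 0 2 hd n02, hN 1 2 hd n12, hN 3 2 hd n23.symm]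
    have b := (h2 (x i) (x j) (hx i) (hx j)).2.1
    rcases hA.val i j with hv | hv <;> rw [hv] <;> linarith
  · obtain ⟨e1, e2⟩ := angle 3 (by simpa using hd) hz
    have e4 : x j - x i + ((3 : ℕ) : ℝ) * (Real.pi / 2) = x j - x i + Real.pi + Real.pi / 2 := by
      push_cast; ring
    rw [e4, Real.cos_add_pi_div_two, Real.sin_add_pi] at e1
    rw [e4, Real.sin_add_pi_div_two, Real.cos_add_pi] at e2
    unfold bd hh
    rw [e1, e2, hP 3 3 hd rfl, hN 0 3 hd n03, hN 1 3 hd n13, hN 2 3 hd n23]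
    have b := h1 (x j) (x i) (hx j) (hx i)
    have b' := (h2 (x j) (x i) (hx j) (hx i)).1
    have e3 : kk (x i - x j) = (x i - x j) * Real.cos (x i - x j) - Real.sin (x i - x j) := rfl
    have e5 : Real.cos (x i - x j) = Real.cos (x j - x i) := by rw [← Real.cos_neg]; congr 1; ring
    have e6 : Real.sin (x i - x j) = -Real.sin (x j - x i) := by rw [← Real.sin_neg]; congr 1; ring
    rw [e3, e5, e6] at b b'
    rcases hA.val i j with hv | hv <;> rw [hv] <;> nlinarith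
end

end Pool.Agent.Q111.KU
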