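import Pool.Agent.Q111.KU.A

/-!
# Project KU: A (rigidity), the sums
-/

set_option autoImplicit false

namespace Pool.Agent.Q111.KU

open Finset

section

variable {V : Type} [Fintype V]

/-- sums over the second index -/
lemma sum_Pc_right (a : V → ℤ) (c : ZMod 4) (f : V → ℝ) :
    ∑ i, ∑ j, Pc a c i j * f i = ∑ i, f i * Nc a ((a i : ZMod 4) + c) := by
  refine Finset.sum_congr rfl fun i _ => ?_
  unfold Nc
  rw [Finset.mul_sum]
  refine Finset.sum_congr rfl fun j _ => ?_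
  unfold Pc
  ring

lemma sum_Pc_left (a : V → ℤ) (c : ZMod 4) (f : V → ℝ) :
    ∑ i, ∑ j, Pc a c i j * f j = ∑ j, f j * Nc a ((a j : ZMod 4) - c) := by
  rw [Finset.sum_comm]
  refine Finset.sum_congr rfl fun j _ => ?_
  unfold Nc
  rw [Finset.mul_sum]
  refine Finset.sum_congr rfl fun i _ => ?_
  unfold Pc
  have h : ((a j : ZMod 4) = (a i : ZMod 4) + c) ↔ ((a i : ZMod 4) = (a j : ZMod 4) - c) := by
    constructor
    · intro h
      rw [h]
      ring
    · intro h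
      rw [h]
      ring
  rw [if_congr h rfl rfl]
  ring

lemma Nc_bounds {a : V → ℤ} (h : Cla a) (c : ZMod 4) :
    (1 / 4 - 1 / 10 ^ 4) * (Fintype.card V : ℝ) ≤ Nc a c ∧
      Nc a c ≤ (1 / 4 + 1 / 10 ^ 4) * (Fintype.card V : ℝ) := by
  have h1 := abs_le.1 (h c)
  constructor <;> linarith [h1.1, h1.2]

lemma sum_weight_le {a : V → ℤ} (h : Cla a) (f : V → ℝ) (hf : ∀ i, 0 ≤ f i) (g : V → ZMod 4) :
    ∑ i, f i * Nc a (g i) ≤ (1 / 4 + 1 / 10 ^ 4) * (Fintype.card V : ℝ) * ∑ i, f i := by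
  rw [Finset.mul_sum]
  refine Finset.sum_le_sum fun i _ => ?_
  rw [mul_comm]
  exact mul_le_mul_of_nonneg_right (Nc_bounds h _).2 (hf i)

lemma le_sum_weight {a : V → ℤ} (h : Cla a) (f : V → ℝ) (hf : ∀ i, 0 ≤ f i) (g : V → ZMod 4) :
    (1 / 4 - 1 / 10 ^ 4) * (Fintype.card V : ℝ) * ∑ i, f i ≤ ∑ i, f i * Nc a (g i) := by
  rw [Finset.mul_sum]
  refine Finset.sum_le_sum fun i _ => ?_
  rw [mul_comm (f i)]
  exact mul_le_mul_of_nonneg_right (Nc_bounds h _).1 (hf i)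

/-- the diagonal classes -/
lemma sum_P0_nonneg (a : V → ℤ) (x : V → ℝ) : 0 ≤ ∑ i, ∑ j, Pc a 0 i j * (x i * x j) := by
  have h : ∑ i, ∑ j, Pc a 0 i j * (x i * x j) =
      ∑ c : ZMod 4, (∑ i, if (a i : ZMod 4) = c then x i else 0) ^ 2 := by
    have h1 : ∀ i j, Pc a 0 i j * (x i * x j) =
        ∑ c : ZMod 4, (if (a i : ZMod 4) = c then x i else 0) * (if (a j : ZMod 4) = c then x j else 0) := by
      intro i j
      rw [Finset.sum_eq_single (a i : ZMod 4)]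
      · unfold Pc
        rw [add_zero, if_pos rfl]
        split_ifs <;> ring
      · intro c _ hc
        rw [if_neg hc.symm, zero_mul]
      · intro h
        exact absurd (Finset.mem_univ _) h
    simp only [h1]
    rw [Finset.sum_congr rfl fun i _ => Finset.sum_comm, Finset.sum_comm]
    refine Finset.sum_congr rfl fun c _ => ?_
    rw [pow_two, Finset.sum_mul_sum]
  rw [h]
  exact Finset.sum_nonneg fun c _ => sq_nonneg _

/-- the sign of the parity of the class -/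
noncomputable def uu (a : V → ℤ) (i : V) : ℝ := if (a i : ZMod 4) = 0 ∨ (a i : ZMod 4) = 2 then 1 else -1

omit [Fintype V] in
lemma P13 (a : V → ℤ) (i j : V) : Pc a 1 i j + Pc a 3 i j = (1 - uu a i * uu a j) / 2 := by
  have key : ∀ p q : ZMod 4, 2 * ((if q = p + 1 then (1 : ℤ) else 0) + (if q = p + 3 then 1 else 0)) =
      1 - (if p = 0 ∨ p = 2 then 1 else -1) * (if q = 0 ∨ q = 2 then 1 else -1) := by decide
  have h := key (a i) (a j)
  have h' : (2 * ((if (a j : ZMod 4) = (a i : ZMod 4) + 1 then (1 : ℝ) else 0) +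
      (if (a j : ZMod 4) = (a i : ZMod 4) + 3 then 1 else 0))) =
      1 - (if (a i : ZMod 4) = 0 ∨ (a i : ZMod 4) = 2 then 1 else -1) *
        (if (a j : ZMod 4) = 0 ∨ (a j : ZMod 4) = 2 then 1 else -1) := by
    exact_mod_cast h
  unfold Pc uu
  linarith

lemma sum_P13_nonpos (a : V → ℤ) (x : V → ℝ) (hx : ∑ k, x k = 0) :
    ∑ i, ∑ j, (Pc a 1 i j + Pc a 3 i j) * (x i * x j) ≤ 0 := by
  have h : ∑ i, ∑ j, (Pc a 1 i j + Pc a 3 i j) * (x i * x j) =
      ((∑ i, x i) * (∑ j, x j) - (∑ i, uu a i * x i) * (∑ j, uu a j * x j)) / 2 := by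
    rw [Finset.sum_mul_sum, Finset.sum_mul_sum, ← Finset.sum_sub_distrib, Finset.sum_div]
    refine Finset.sum_congr rfl fun i _ => ?_
    rw [← Finset.sum_sub_distrib, Finset.sum_div]
    refine Finset.sum_congr rfl fun j _ => ?_
    rw [P13]
    ring
  rw [h, hx]
  nlinarith [sq_nonneg (∑ i, uu a i * x i)]

theorem t_A (h0 : S_P0) (h1 : S_P1) (h2 : S_P2) : S_A := by
  intro V _ A θ ε φ a x hA hE hI hε hD hθ hx hx0 hs hcl
  set n : ℝ := (Fintype.card V : ℝ) with hn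
  have hn0 : 0 ≤ n := Nat.cast_nonneg _
  set s : ℝ := ∑ k, x k ^ 2 with hsdef
  have hs0 : 0 ≤ s := Finset.sum_nonneg fun k _ => sq_nonneg _
  have hsq : ∀ k, 0 ≤ x k ^ 2 := fun k => sq_nonneg _
  -- the main inequality
  have hT := sum_hh A θ x hA hE hI
  have hB : ∑ i, ∑ j, A i j * hh θ x i j ≤ ∑ i, ∑ j, bd A a x i j :=
    Finset.sum_le_sum fun i _ => Finset.sum_le_sum fun j _ =>
      hh_le_bd h0 h1 h2 A hA θ x φ a hθ hx i j
  -- split the sum
  have hsplit : ∑ i, ∑ j, bd A a x i j =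
      3 / 2 * (∑ i, ∑ j, Pc a 0 i j * x i ^ 2 + ∑ i, ∑ j, Pc a 0 i j * x j ^ 2 -
        2 * ∑ i, ∑ j, Pc a 0 i j * (x i * x j)) -
      77 / 100 * (∑ i, ∑ j, Pc a 1 i j * x i ^ 2 + ∑ i, ∑ j, Pc a 1 i j * x j ^ 2 +
        ∑ i, ∑ j, Pc a 3 i j * x i ^ 2 + ∑ i, ∑ j, Pc a 3 i j * x j ^ 2 -
        2 * ∑ i, ∑ j, (Pc a 1 i j + Pc a 3 i j) * (x i * x j)) +
      (∑ i, ∑ j, Pc a 1 i j * kk (x j) - ∑ i, ∑ j, Pc a 1 i j * kk (x i)) +
      (∑ i, ∑ j, Pc a 3 i j * kk (x i) - ∑ i, ∑ j, Pc a 3 i j * kk (x j)) -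
      12 / 5 * (∑ i, ∑ j, Pc a 2 i j * x i ^ 2 + ∑ i, ∑ j, Pc a 2 i j * x j ^ 2) +
      12 / 5 * (∑ i, ∑ j, (1 - A i j) * x i ^ 2 + ∑ i, ∑ j, (1 - A i j) * x j ^ 2) -
      1 / 20 * ∑ i, ∑ j, A i j * Pc a 2 i j + 3600 * ∑ i, ∑ j, x i ^ 2 * x j ^ 2 +
      2 * ∑ i, ∑ j, |x i| * |x j| * (|x i| + |x j|) := by
    simp only [Finset.mul_sum, ← Finset.sum_add_distrib, ← Finset.sum_sub_distrib]
    refine Finset.sum_congr rfl fun i _ => Finset.sum_congr rfl fun j _ => ?_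
    unfold bd
    ring
  -- the bounds
  have b0a := sum_weight_le hcl (fun i => x i ^ 2) hsq (fun i => (a i : ZMod 4) + 0)
  have b0b := sum_weight_le hcl (fun i => x i ^ 2) hsq (fun i => (a i : ZMod 4) - 0)
  have b0c := sum_P0_nonneg a x
  have b1a := le_sum_weight hcl (fun i => x i ^ 2) hsq (fun i => (a i : ZMod 4) + 1)
  have b1b := le_sum_weight hcl (fun i => x i ^ 2) hsq (fun i => (a i : ZMod 4) - 1)
  have b3a := le_sum_weight hcl (fun i => x i ^ 2) hsq (fun i => (a i : ZMod 4) + 3)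
  have b3b := le_sum_weight hcl (fun i => x i ^ 2) hsq (fun i => (a i : ZMod 4) - 3)
  have b13 := sum_P13_nonpos a x hx0
  have b2a := le_sum_weight hcl (fun i => x i ^ 2) hsq (fun i => (a i : ZMod 4) + 2)
  have b2b := le_sum_weight hcl (fun i => x i ^ 2) hsq (fun i => (a i : ZMod 4) - 2)
  rw [← hn, ← hsdef] at b0a b0b b1a b1b b3a b3b b2a b2b
  rw [← sum_Pc_right a 0] at b0a
  rw [← sum_Pc_left a 0] at b0b
  rw [← sum_Pc_right a 1] at b1a
  rw [← sum_Pc_left a 1] at b1b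
  rw [← sum_Pc_right a 3] at b3a
  rw [← sum_Pc_left a 3] at b3b
  rw [← sum_Pc_right a 2] at b2a
  rw [← sum_Pc_left a 2] at b2b
  -- the missing pairs
  have hBn : ∀ i j, 0 ≤ 1 - A i j := fun i j => by
    rcases hA.val i j with hv | hv <;> rw [hv] <;> norm_num
  have bBa : ∑ i, ∑ j, (1 - A i j) * x i ^ 2 ≤ (1 / 4 + ε) * n * s := by
    rw [hsdef, Finset.mul_sum]
    refine Finset.sum_le_sum fun i _ => ?_
    rw [← Finset.sum_mul]
    exact mul_le_mul_of_nonneg_right (hD i) (sq_nonneg _)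
  have bBb : ∑ i, ∑ j, (1 - A i j) * x j ^ 2 ≤ (1 / 4 + ε) * n * s := by
    rw [Finset.sum_comm, hsdef, Finset.mul_sum]
    refine Finset.sum_le_sum fun j _ => ?_
    rw [← Finset.sum_mul]
    refine mul_le_mul_of_nonneg_right ?_ (sq_nonneg _)
    have := hD j
    rw [Finset.sum_congr rfl fun i _ => by rw [hA.symm j i]] at this
    exact this
  -- the odd part
  have hodd : ∀ (c d : ZMod 4), ∑ i, kk (x i) * Nc a ((a i : ZMod 4) + c) -
      ∑ i, kk (x i) * Nc a ((a i : ZMod 4) + d) ≤ 2 / 10 ^ 4 * n * s := by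
    intro c d
    rw [← Finset.sum_sub_distrib, hsdef, Finset.mul_sum]
    refine Finset.sum_le_sum fun i _ => ?_
    have e1 := Nc_bounds hcl ((a i : ZMod 4) + c)
    have e2 := Nc_bounds hcl ((a i : ZMod 4) + d)
    rw [← hn] at e1 e2
    have e3 : |Nc a ((a i : ZMod 4) + c) - Nc a ((a i : ZMod 4) + d)| ≤ 2 / 10 ^ 4 * n := by
      rw [abs_le]
      constructor <;> linarith [e1.1, e1.2, e2.1, e2.2]
    have e4 : |kk (x i)| ≤ x i ^ 2 := (h2 (x i) (x i) (hx i) (hx i)).2.2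
    calc kk (x i) * Nc a ((a i : ZMod 4) + c) - kk (x i) * Nc a ((a i : ZMod 4) + d)
        = kk (x i) * (Nc a ((a i : ZMod 4) + c) - Nc a ((a i : ZMod 4) + d)) := by ring
      _ ≤ |kk (x i) * (Nc a ((a i : ZMod 4) + c) - Nc a ((a i : ZMod 4) + d))| := le_abs_self _
      _ = |kk (x i)| * |Nc a ((a i : ZMod 4) + c) - Nc a ((a i : ZMod 4) + d)| := abs_mul _ _
      _ ≤ x i ^ 2 * (2 / 10 ^ 4 * n) := mul_le_mul e4 e3 (abs_nonneg _) (sq_nonneg _)
      _ = 2 / 10 ^ 4 * n * x i ^ 2 := by ring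
  have bk1 : ∑ i, ∑ j, Pc a 1 i j * kk (x j) - ∑ i, ∑ j, Pc a 1 i j * kk (x i) ≤
      2 / 10 ^ 4 * n * s := by
    rw [sum_Pc_left a 1 (fun j => kk (x j)), sum_Pc_right a 1 (fun j => kk (x j))]
    have := hodd (-1) 1
    simp only [← sub_eq_add_neg] at this
    exact this
  have bk3 : ∑ i, ∑ j, Pc a 3 i j * kk (x i) - ∑ i, ∑ j, Pc a 3 i j * kk (x j) ≤
      2 / 10 ^ 4 * n * s := by
    rw [sum_Pc_left a 3 (fun j => kk (x j)), sum_Pc_right a 3 (fun j => kk (x j))]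
    have := hodd 3 (-3)
    simp only [← sub_eq_add_neg] at this
    exact this
  -- the quartic part
  have bW : ∑ i, ∑ j, x i ^ 2 * x j ^ 2 = s * s := by
    rw [hsdef, Finset.sum_mul_sum]
  -- the cubic part
  set r : ℝ := ∑ k, |x k| with hr
  have hr0 : 0 ≤ r := Finset.sum_nonneg fun k _ => abs_nonneg _
  have bX : ∑ i, ∑ j, |x i| * |x j| * (|x i| + |x j|) = 2 * (s * r) := by
    have e : ∀ i j : V, |x i| * |x j| * (|x i| + |x j|) = x i ^ 2 * |x j| + |x i| * x j ^ 2 := by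
      intro i j
      rw [← sq_abs (x i), ← sq_abs (x j)]
      ring
    simp only [e, Finset.sum_add_distrib]
    rw [← Finset.sum_mul_sum, ← Finset.sum_mul_sum, ← hsdef, ← hr]
    ring
  have hr2 : r ^ 2 ≤ n * s := by
    have := Finset.sum_mul_sq_le_sq_mul_sq (Finset.univ : Finset V) (fun _ => (1 : ℝ)) (fun k => |x k|)
    simp only [one_mul, one_pow, sq_abs, Finset.sum_const, Finset.card_univ, nsmul_eq_mul, mul_one]
      at this
    exact this
  have hrn : r ≤ 1 / 10 ^ 4 * n := by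
    have e1 : r ^ 2 ≤ (1 / 10 ^ 4 * n) ^ 2 := by
      have e2 : n * s ≤ n * (n / 10 ^ 9) := mul_le_mul_of_nonneg_left hs hn0
      nlinarith [sq_nonneg n]
    exact abs_le_of_sq_le_sq' e1 (by positivity) |>.2
  -- no edges between opposite clusters
  set O : ℝ := ∑ i, ∑ j, A i j * Pc a 2 i j with hO
  have hOt : ∀ i j, 0 ≤ A i j * Pc a 2 i j := fun i j =>
    mul_nonneg (by rcases hA.val i j with hv | hv <;> rw [hv]; norm_num) (Pc_nonneg a 2 i j)
  have hO0 : 0 ≤ O := Finset.sum_nonneg fun i _ => Finset.sum_nonneg fun j _ => hOt i j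
  have hns : 0 ≤ n * s := mul_nonneg hn0 hs0
  have hss : s * s ≤ n / 10 ^ 9 * s := mul_le_mul_of_nonneg_right hs hs0
  have hsr : s * r ≤ s * (1 / 10 ^ 4 * n) := mul_le_mul_of_nonneg_left hrn hs0
  have hεns : ε * (n * s) ≤ 1 / 10 ^ 5 * (n * s) := mul_le_mul_of_nonneg_right hε hns
  have hfin : n * s * (1 / 100) + 1 / 20 * O ≤ 0 := by
    rw [hsplit, bW, bX] at hB
    nlinarith
  have hOz : O = 0 := by linarith
  have hnsz : n * s = 0 := by linarith
  refine ⟨fun k => ?_, fun i j hij => ?_⟩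
  · have hn1 : 0 < n := by
      rw [hn]
      exact_mod_cast Fintype.card_pos_iff.2 ⟨k⟩
    have hsz : s = 0 := by
      rcases mul_eq_zero.1 hnsz with h | h
      · exact absurd h hn1.ne'
      · exact h
    have := (Finset.sum_eq_zero_iff_of_nonneg (fun k _ => sq_nonneg (x k))).1 hsz k (Finset.mem_univ k)
    exact pow_eq_zero_iff (two_ne_zero) |>.1 this
  · have e1 := (Finset.sum_eq_zero_iff_of_nonneg (fun i _ => Finset.sum_nonneg fun j _ => hOt i j)).1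
      hOz i (Finset.mem_univ i)
    have e2 := (Finset.sum_eq_zero_iff_of_nonneg (fun j _ => hOt i j)).1 e1 j (Finset.mem_univ j)
    unfold Pc at e2
    rw [if_pos hij, mul_one] at e2
    exact e2

end

end Pool.Agent.Q111.KU
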