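import Pool.Agent.Q111.KU.A2

/-!
# Project KU: FI, four clusters at right angles
-/

set_option autoImplicit false

namespace Pool.Agent.Q111.KU

open Finset Filter Topology

section

variable {V : Type} [Fintype V]

/-- the sum over the four classes -/
lemma sum_classes (a : V → ℤ) (d : V → ℝ) (g : ZMod 4 → ℝ) :
    ∑ i, g (a i : ZMod 4) * d i = ∑ c : ZMod 4, g c * ∑ i, if (a i : ZMod 4) = c then d i else 0 := by
  simp only [Finset.mul_sum]
  rw [Finset.sum_comm]
  refine Finset.sum_congr rfl fun i _ => ?_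
  rw [Finset.sum_eq_single (a i : ZMod 4)]
  · rw [if_pos rfl]
  · intro c _ hc
    rw [if_neg hc.symm, mul_zero]
  · intro h
    exact absurd (Finset.mem_univ _) h

omit [Fintype V] in
lemma Pc31 (a : V → ℤ) (i j : V) : Pc a 3 i j = Pc a 1 j i := by
  have key : ∀ p q : ZMod 4, (q = p + 3) ↔ (p = q + 1) := by decide
  unfold Pc
  exact if_congr (key _ _) rfl rfl

/-- the rotation of the clusters -/
noncomputable def zz (t : ℝ) (c : ZMod 4) : ℝ := if c = 3 then 3 * t else -t

lemma zz_val (t : ℝ) (c : ZMod 4) : -(t * ((c + 1).val : ℝ)) + t * (c.val : ℝ) = zz t c := by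
  have key : ∀ c : ZMod 4, c = 3 ∧ (c + 1).val = 0 ∧ c.val = 3 ∨ c ≠ 3 ∧ (c + 1).val = c.val + 1 := by
    decide
  unfold zz
  rcases key c with ⟨h1, h2, h3⟩ | ⟨h1, h2⟩
  · rw [if_pos h1, h2, h3]
    push_cast
    ring
  · rw [if_neg h1, h2]
    push_cast
    ring

theorem t_FI : S_FI := by
  intro V _ A θ ε φ a hcard hA hE hε hD hθ hcl hopp hmin
  set n : ℝ := (Fintype.card V : ℝ) with hn
  have hn0 : 0 < n := by rw [hn]; exact_mod_cast hcard
  have hcase : ∀ d : ZMod 4, d = 0 ∨ d = 1 ∨ d = 2 ∨ d = 3 := by decide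
  have hdiff : ∀ i j, ∃ d : ZMod 4, (a j : ZMod 4) = (a i : ZMod 4) + d :=
    fun i j => ⟨_, (add_sub_cancel _ _).symm⟩
  have n01 : (0 : ZMod 4) ≠ 1 := by decide
  have n03 : (0 : ZMod 4) ≠ 3 := by decide
  have n12 : (1 : ZMod 4) ≠ 2 := by decide
  have n13 : (1 : ZMod 4) ≠ 3 := by decide
  have n23 : (2 : ZMod 4) ≠ 3 := by decide
  have hP : ∀ (i j : V) (c d : ZMod 4), (a j : ZMod 4) = (a i : ZMod 4) + d → c = d →
      Pc a c i j = 1 := by
    intro i j c d h e
    unfold Pc
    rw [if_pos (by rw [h, e])]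
  have hN : ∀ (i j : V) (c d : ZMod 4), (a j : ZMod 4) = (a i : ZMod 4) + d → c ≠ d →
      Pc a c i j = 0 := by
    intro i j c d h e
    unfold Pc
    rw [if_neg]
    rw [h]
    intro h'
    exact e (add_left_cancel h').symm
  -- the path
  set g : ℝ → V → ℝ := fun t k => θ k - t * ((a k : ZMod 4).val : ℝ) with hg
  have hgd : ∀ (t : ℝ) (i j : V), g t i - g t j =
      -(((a j : ℝ) - a i) * (Real.pi / 2) +
        (-(t * ((a j : ZMod 4).val : ℝ)) + t * ((a i : ZMod 4).val : ℝ))) := by
    intro t i j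
    simp only [hg]
    rw [hθ i, hθ j]
    ring
  -- the flows
  set dp : V → ℝ := fun i => ∑ j, A i j * Pc a 1 i j with hdp
  have hflow : ∀ i, dp i = ∑ j, A i j * Pc a 3 i j := by
    intro i
    have h := hE i
    have e : ∀ j, A i j * Real.sin (θ j - θ i) = A i j * Pc a 1 i j - A i j * Pc a 3 i j := by
      intro j
      obtain ⟨d, hd⟩ := hdiff i j
      have hts : θ i - θ j = -(((a j : ℝ) - a i) * (Real.pi / 2) + 0) := by
        rw [hθ i, hθ j]; ring
      have hneg : Real.sin (θ j - θ i) = -Real.sin (θ i - θ j) := by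
        rw [← Real.sin_neg]; congr 1; ring
      rcases hcase d with rfl | rfl | rfl | rfl
      · obtain ⟨_, e2⟩ := angle 0 (by simpa using hd) hts
        rw [hneg, e2, hN i j 1 0 hd n01.symm, hN i j 3 0 hd n03.symm]
        simp
      · obtain ⟨_, e2⟩ := angle 1 (by simpa using hd) hts
        rw [hneg, e2, hP i j 1 1 hd rfl, hN i j 3 1 hd n13.symm]
        simp
      · rw [hopp i j hd]
        ring
      · obtain ⟨_, e2⟩ := angle 3 (by simpa using hd) hts
        have e4 : (0 : ℝ) + ((3 : ℕ) : ℝ) * (Real.pi / 2) = Real.pi / 2 + Real.pi := by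
          push_cast; ring
        rw [hneg, e2, e4, Real.sin_add_pi, Real.sin_pi_div_two, hN i j 1 3 hd n13, hP i j 3 3 hd rfl]
        ring
    rw [Finset.sum_congr rfl fun j _ => e j, Finset.sum_sub_distrib] at h
    simp only [hdp]
    linarith
  set e : ZMod 4 → ℝ := fun c => ∑ i, if (a i : ZMod 4) = c then dp i else 0 with he
  have hstep : ∀ c, e (c + 1) = e c := by
    intro c
    have e1 : e (c + 1) = ∑ j, ∑ i, if (a j : ZMod 4) = c + 1 then A j i * Pc a 3 j i else 0 := by
      simp only [he]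
      refine Finset.sum_congr rfl fun j _ => ?_
      rw [hflow j]
      split_ifs <;> simp
    have e2 : e c = ∑ i, ∑ j, if (a i : ZMod 4) = c then A i j * Pc a 1 i j else 0 := by
      simp only [he]
      refine Finset.sum_congr rfl fun i _ => ?_
      simp only [hdp]
      split_ifs <;> simp
    rw [e1, e2, Finset.sum_comm]
    refine Finset.sum_congr rfl fun i _ => Finset.sum_congr rfl fun j _ => ?_
    rw [Pc31, hA.symm j i]
    by_cases h : (a j : ZMod 4) = (a i : ZMod 4) + 1
    · have h' : (a j : ZMod 4) = c + 1 ↔ (a i : ZMod 4) = c := by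
        rw [h]
        exact add_left_inj 1
      rw [if_congr h' rfl rfl]
    · unfold Pc
      rw [if_neg h]
      simp
  have he0 : ∀ c, e c = e 0 := by
    have h1 : e 1 = e 0 := by have := hstep 0; rwa [zero_add] at this
    have h2 : e 2 = e 0 := by
      have := hstep 1
      have e3 : (1 : ZMod 4) + 1 = 2 := by decide
      rw [e3] at this
      rw [this, h1]
    have h3 : e 3 = e 0 := by
      have := hstep 2
      have e3 : (2 : ZMod 4) + 1 = 3 := by decide
      rw [e3] at this
      rw [this, h2]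
    intro c
    rcases hcase c with rfl | rfl | rfl | rfl
    · rfl
    · exact h1
    · exact h2
    · exact h3
  -- positivity
  have hAn : ∀ i j, 0 ≤ A i j := fun i j => by
    rcases hA.val i j with hv | hv <;> rw [hv]
    norm_num
  have hdpn : ∀ i, 0 ≤ dp i := fun i =>
    Finset.sum_nonneg fun j _ => mul_nonneg (hAn i j) (Pc_nonneg a 1 i j)
  have hdppos : ∀ i, 0 < dp i := by
    intro i
    have h1 : ∑ j, ((1 - A i j) * Pc a 1 i j + Pc a 2 i j) ≤ ∑ j, (1 - A i j) := by
      refine Finset.sum_le_sum fun j _ => ?_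
      obtain ⟨d, hd⟩ := hdiff i j
      have hA1 : A i j ≤ 1 := by rcases hA.val i j with hv | hv <;> rw [hv]; norm_num
      rcases hcase d with rfl | rfl | rfl | rfl
      · rw [hN i j 1 0 hd n01.symm, hN i j 2 0 hd (by decide)]
        linarith
      · rw [hP i j 1 1 hd rfl, hN i j 2 1 hd n12.symm]
        linarith
      · rw [hN i j 1 2 hd n12, hP i j 2 2 hd rfl, hopp i j hd]
        norm_num
      · rw [hN i j 1 3 hd n13, hN i j 2 3 hd n23]
        linarith
    have h2 : ∑ j, ((1 - A i j) * Pc a 1 i j + Pc a 2 i j) =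
        Nc a ((a i : ZMod 4) + 1) - dp i + Nc a ((a i : ZMod 4) + 2) := by
      simp only [hdp, Nc, ← Finset.sum_sub_distrib, ← Finset.sum_add_distrib]
      refine Finset.sum_congr rfl fun j _ => ?_
      unfold Pc
      ring
    have h3 := hD i
    have h4 := (Nc_bounds hcl ((a i : ZMod 4) + 1)).1
    have h5 := (Nc_bounds hcl ((a i : ZMod 4) + 2)).1
    rw [← hn] at h3 h4 h5
    rw [h2] at h1
    have h6 : (1 / 4 + ε) * n ≤ (1 / 4 + 1 / 10 ^ 5) * n :=
      mul_le_mul_of_nonneg_right (by linarith) hn0.le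
    nlinarith
  have hepos : 0 < e 0 := by
    obtain ⟨i⟩ := Fintype.card_pos_iff.1 hcard
    rw [← he0 (a i)]
    simp only [he]
    refine lt_of_lt_of_le (hdppos i) ?_
    have := Finset.single_le_sum (f := fun k => if (a k : ZMod 4) = (a i : ZMod 4) then dp k else 0)
      (fun k _ => by split_ifs; exacts [hdpn k, le_rfl]) (Finset.mem_univ i)
    simpa using this
  -- the energy along the path
  have henergy : ∀ t : ℝ, energy A (g t) = 4 * e 0 * (1 - Real.sin t ^ 3) := by
    intro t
    have hpt : ∀ i j, A i j * (1 - Real.cos (g t i - g t j)) =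
        A i j * Pc a 1 i j * (1 + Real.sin (zz t (a i))) +
          A j i * Pc a 1 j i * (1 + Real.sin (zz t (a j))) := by
      intro i j
      obtain ⟨d, hd⟩ := hdiff i j
      rw [hA.symm j i, ← Pc31 a i j]
      rcases hcase d with rfl | rfl | rfl | rfl
      · obtain ⟨e1, _⟩ := angle 0 (by simpa using hd) (hgd t i j)
        rw [e1, hN i j 1 0 hd n01.symm, hN i j 3 0 hd n03.symm]
        rw [add_zero] at hd
        rw [hd]
        simp
      · obtain ⟨e1, _⟩ := angle 1 (by simpa using hd) (hgd t i j)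
        rw [e1, hP i j 1 1 hd rfl, hN i j 3 1 hd n13.symm, hd, zz_val]
        simp only [Nat.cast_one, one_mul, Real.cos_add_pi_div_two]
        ring
      · rw [hopp i j hd]
        ring
      · obtain ⟨e1, _⟩ := angle 3 (by simpa using hd) (hgd t i j)
        have hd' : (a i : ZMod 4) = (a j : ZMod 4) + 1 := by
          rw [hd, add_assoc]
          have : (3 : ZMod 4) + 1 = 0 := by decide
          rw [this, add_zero]
        have e3 : -(t * ((a j : ZMod 4).val : ℝ)) + t * ((a i : ZMod 4).val : ℝ) = - zz t (a j) := by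
          rw [← zz_val, hd']
          ring
        have e4 : -zz t (a j) + ((3 : ℕ) : ℝ) * (Real.pi / 2) = -zz t (a j) + Real.pi + Real.pi / 2 := by
          push_cast; ring
        rw [e1, e3, e4, Real.cos_add_pi_div_two, Real.sin_add_pi, Real.sin_neg,
          hN i j 1 3 hd n13, hP i j 3 3 hd rfl]
        ring
    have h1 : energy A (g t) = ∑ i, (1 + Real.sin (zz t (a i))) * dp i := by
      unfold energy
      simp only [hpt, Finset.sum_add_distrib]
      have h2 : ∑ i, ∑ j, A j i * Pc a 1 j i * (1 + Real.sin (zz t (a j))) =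
          ∑ i, ∑ j, A i j * Pc a 1 i j * (1 + Real.sin (zz t (a i))) := Finset.sum_comm
      rw [h2]
      have h3 : ∑ i, ∑ j, A i j * Pc a 1 i j * (1 + Real.sin (zz t (a i))) =
          ∑ i, (1 + Real.sin (zz t (a i))) * dp i := by
        refine Finset.sum_congr rfl fun i _ => ?_
        simp only [hdp]
        rw [← Finset.sum_mul, mul_comm]
      rw [h3]
      ring
    rw [h1, sum_classes a dp (fun c => 1 + Real.sin (zz t c))]
    have h4 : ∑ c : ZMod 4, (1 + Real.sin (zz t c)) * (∑ i, if (a i : ZMod 4) = c then dp i else 0) =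
        ∑ c : ZMod 4, (1 + Real.sin (zz t c)) * e 0 := by
      refine Finset.sum_congr rfl fun c _ => ?_
      rw [← he0 c]
    rw [h4, ← Finset.sum_mul]
    have h5 : ∑ c : ZMod 4, (1 + Real.sin (zz t c)) = 4 - 3 * Real.sin t + Real.sin (3 * t) := by
      have : ∑ c : ZMod 4, (1 + Real.sin (zz t c)) = (1 + Real.sin (zz t 0)) + (1 + Real.sin (zz t 1)) +
          (1 + Real.sin (zz t 2)) + (1 + Real.sin (zz t 3)) := Fin.sum_univ_four _
      rw [this]
      unfold zz
      rw [if_neg n03, if_neg n13, if_neg n23, if_pos rfl, Real.sin_neg]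
      ring
    rw [h5, Real.sin_three_mul]
    ring
  -- the contradiction
  have hg0 : g 0 = θ := by
    funext k
    simp [hg]
  have hcont : Continuous g := by
    refine continuous_pi fun k => ?_
    exact continuous_const.sub (continuous_id.mul continuous_const)
  have hev : ∀ᶠ t in 𝓝 (0 : ℝ), energy A θ ≤ energy A (g t) := by
    have h1 : Tendsto g (𝓝 0) (𝓝 θ) := by
      rw [← hg0]
      exact hcont.tendsto 0
    exact h1.eventually hmin
  obtain ⟨δ, hδ, hball⟩ := Metric.eventually_nhds_iff.1 hev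
  have hpi := Real.pi_gt_three
  set t : ℝ := min (δ / 2) 1 with ht
  have ht0 : 0 < t := lt_min (by linarith) one_pos
  have ht1 : t ≤ 1 := min_le_right _ _
  have htd : t < δ := lt_of_le_of_lt (min_le_left _ _) (by linarith)
  have h1 := @hball t (by rw [Real.dist_eq, sub_zero, abs_of_pos ht0]; exact htd)
  have h2 : energy A θ = 4 * e 0 := by
    have := henergy 0
    rw [hg0, Real.sin_zero] at this
    rw [this]
    ring
  rw [h2, henergy t] at h1
  have h3 : 0 < Real.sin t := Real.sin_pos_of_pos_of_lt_pi ht0 (by linarith)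
  have h4 : 0 < Real.sin t ^ 3 := pow_pos h3 3
  nlinarith [mul_pos hepos h4]

end

end Pool.Agent.Q111.KU
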