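import Pool.Agent.Q111.KU.Stm

/-!
# Project KU: ST, most of the points are close to one of four points at right angles
-/

set_option autoImplicit false

namespace Pool.Agent.Q111.KU

open Finset

lemma one_sub_cos_two (t : ℝ) : 1 - Real.cos (2 * t) ≤ 4 * (1 + Real.cos t) := by
  rw [Real.cos_two_mul]
  nlinarith [Real.neg_one_le_cos t, Real.cos_le_one t]

lemma one_sub_cos_two' (s t : ℝ) :
    1 - Real.cos (2 * (s + t)) ≤ 8 * (1 + Real.cos s) + 8 * (1 + Real.cos t) := by
  have h1 : 1 - Real.cos (2 * (s + t)) = 2 * Real.sin (s + t) ^ 2 := by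
    rw [Real.cos_two_mul, Real.sin_sq]
    ring
  have h2 : Real.sin (s + t) ^ 2 ≤ 2 * Real.sin s ^ 2 + 2 * Real.sin t ^ 2 := by
    rw [Real.sin_add]
    have a1 : (Real.sin s * Real.cos t) ^ 2 ≤ Real.sin s ^ 2 := by
      rw [mul_pow]
      exact mul_le_of_le_one_right (sq_nonneg _) (Real.cos_sq_le_one t)
    have a2 : (Real.cos s * Real.sin t) ^ 2 ≤ Real.sin t ^ 2 := by
      rw [mul_pow]
      exact mul_le_of_le_one_left (sq_nonneg _) (Real.cos_sq_le_one s)
    nlinarith [sq_nonneg (Real.sin s * Real.cos t - Real.cos s * Real.sin t)]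
  have h3 : ∀ u : ℝ, Real.sin u ^ 2 ≤ 2 * (1 + Real.cos u) := by
    intro u
    rw [Real.sin_sq]
    nlinarith [Real.neg_one_le_cos u, Real.cos_le_one u]
  rw [h1]
  linarith [h3 s, h3 t]

/-- two antipodal points are far from each other -/
lemma overlap (α β ε : ℝ) (hε0 : 0 ≤ ε) (hε : ε ≤ 1 / 10 ^ 4) (h : 1 + Real.cos β ≤ 65 * ε) :
    1 ≤ (1 + Real.cos α) + (1 + Real.cos (α - β)) := by
  have h1 : Real.sin β ^ 2 ≤ 130 * ε := by
    rw [Real.sin_sq]
    nlinarith [Real.neg_one_le_cos β, Real.cos_le_one β]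
  have h2 : |Real.sin β| ≤ 1 / 5 := by
    apply abs_le_of_sq_le_sq _ (by norm_num)
    nlinarith
  have h3 : |Real.sin α * Real.sin β| ≤ 1 / 5 := by
    rw [abs_mul]
    have := Real.abs_sin_le_one α
    nlinarith [abs_nonneg (Real.sin α), abs_nonneg (Real.sin β)]
  have h4 : |Real.cos α * (1 + Real.cos β)| ≤ 65 * ε := by
    rw [abs_mul, abs_of_nonneg (by linarith [Real.neg_one_le_cos β] : 0 ≤ 1 + Real.cos β)]
    have := Real.abs_cos_le_one α
    nlinarith [abs_nonneg (Real.cos α), Real.neg_one_le_cos β]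
  rw [Real.cos_sub]
  have h5 := abs_le.1 h3
  have h6 := abs_le.1 h4
  nlinarith [h5.1, h6.1]

theorem t_ST : S_ST := by
  intro V _ A θ ε hA hcard hε0 hε hD hOP hU hM
  classical
  set n : ℝ := (Fintype.card V : ℝ) with hn
  have hn0 : 0 < n := by rw [hn]; exact_mod_cast hcard
  set B : V → V → ℝ := fun i j => 1 - A i j with hB
  have hB01 : ∀ i j, B i j = 0 ∨ B i j = 1 := by
    intro i j
    rcases hA.val i j with h | h
    · right; simp only [hB]; rw [h]; norm_num
    · left; simp only [hB]; rw [h]; norm_num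
  have hBn : ∀ i j, 0 ≤ B i j := fun i j => by rcases hB01 i j with h | h <;> rw [h]; norm_num
  have hBs : ∀ i j, B i j = B j i := fun i j => by simp only [hB]; rw [hA.symm i j]
  set u : V → V → ℝ := fun i j => 1 + Real.cos (θ i - θ j) with hu
  have hun : ∀ i j, 0 ≤ u i j := fun i j => by
    simp only [hu]
    linarith [Real.neg_one_le_cos (θ i - θ j)]
  have hus : ∀ i j, u i j = u j i := fun i j => by
    simp only [hu]
    rw [← Real.cos_neg, neg_sub]
  set D : V → ℝ := fun i => ∑ k, B i k * u i k with hDdef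
  set r : V → ℝ := fun i => ∑ k, B i k with hr
  have hD' : ∀ i, r i ≤ (1 / 4 + ε) * n := hD
  have hr0 : ∀ i, 0 ≤ r i := fun i => Finset.sum_nonneg fun k _ => hBn i k
  have hDn : ∀ i, 0 ≤ D i := fun i => Finset.sum_nonneg fun k _ => mul_nonneg (hBn i k) (hun i k)
  have hsD : ∑ i, D i ≤ 7 * ε * n ^ 2 := hU
  have hsr : (1 / 4 - 5 / 2 * ε) * n ^ 2 ≤ ∑ i, r i := hM
  set F : V → ℝ := fun i => D i + ((1 / 4 + ε) * n - r i) with hF
  have hFn : ∀ i, 0 ≤ F i := fun i => by
    simp only [hF]
    linarith [hDn i, hD' i]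
  have hsF : ∑ i, F i ≤ 21 / 2 * ε * n ^ 2 := by
    have h1 : ∑ i, F i = ∑ i, D i + ((1 / 4 + ε) * n * n - ∑ i, r i) := by
      simp only [hF, Finset.sum_add_distrib, Finset.sum_sub_distrib, Finset.sum_const,
        Finset.card_univ, nsmul_eq_mul]
      rw [← hn]
      ring
    rw [h1]
    nlinarith
  -- the good pair
  obtain ⟨i, j, hij1, hij2⟩ : ∃ i j, B i j = 1 ∧ (F i + F j) / n + u i j ≤ 65 * ε := by
    by_contra hcon
    push Not at hcon
    have h1 : ∑ i, ∑ j, B i j * ((F i + F j) / n + u i j) ≤ 13 * ε * n ^ 2 := by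
      have e1 : ∑ i, ∑ j, B i j * ((F i + F j) / n + u i j) =
          (∑ i, F i * r i + ∑ j, F j * r j) / n + ∑ i, D i := by
        have e2 : ∀ i, F i * r i = ∑ j, B i j * F i := by
          intro i
          simp only [hr]
          rw [← Finset.sum_mul]
          ring
        have e3 : ∑ j, F j * r j = ∑ i, ∑ j, B i j * F j := by
          rw [Finset.sum_comm]
          refine Finset.sum_congr rfl fun j _ => ?_
          rw [e2 j]
          exact Finset.sum_congr rfl fun i _ => by rw [hBs]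
        have e8 : ∑ i, F i * r i = ∑ i, ∑ j, B i j * F i := Finset.sum_congr rfl fun i _ => e2 i
        have e9 : ∑ i, F i * r i + ∑ j, F j * r j =
            ∑ i, ∑ j, B i j * F i + ∑ i, ∑ j, B i j * F j := congrArg₂ (· + ·) e8 e3
        rw [e9, ← Finset.sum_add_distrib, Finset.sum_div, ← Finset.sum_add_distrib]
        refine Finset.sum_congr rfl fun i _ => ?_
        simp only [hDdef]
        rw [← Finset.sum_add_distrib, Finset.sum_div, ← Finset.sum_add_distrib]
        refine Finset.sum_congr rfl fun j _ => ?_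
        ring
      have e4 : ∑ i, F i * r i ≤ (1 / 4 + ε) * n * (21 / 2 * ε * n ^ 2) := by
        calc ∑ i, F i * r i ≤ ∑ i, F i * ((1 / 4 + ε) * n) :=
              Finset.sum_le_sum fun i _ => mul_le_mul_of_nonneg_left (hD' i) (hFn i)
          _ = (1 / 4 + ε) * n * ∑ i, F i := by rw [← Finset.sum_mul]; ring
          _ ≤ _ := mul_le_mul_of_nonneg_left hsF (by positivity)
      rw [e1]
      have e5 : (∑ i, F i * r i + ∑ j, F j * r j) / n ≤ 2 * ((1 / 4 + ε) * (21 / 2 * ε * n ^ 2)) := by
        rw [div_le_iff₀ hn0]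
        nlinarith
      have e6 : 2 * ((1 / 4 + ε) * (21 / 2 * ε * n ^ 2)) ≤ 6 * ε * n ^ 2 := by
        have e7 : 0 ≤ ε * n ^ 2 := by positivity
        nlinarith
      linarith
    have h2 : 65 * ε * ∑ i, r i ≤ ∑ i, ∑ j, B i j * ((F i + F j) / n + u i j) := by
      simp only [hr]
      rw [Finset.mul_sum]
      refine Finset.sum_le_sum fun i _ => ?_
      rw [Finset.mul_sum]
      refine Finset.sum_le_sum fun j _ => ?_
      rcases hB01 i j with h | h
      · rw [h]; simp
      · rw [h, mul_one, one_mul]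
        exact (hcon i j h).le
    have h3 : 0 < ε * n ^ 2 := by positivity
    have h4 : (6 : ℝ) / 25 * n ^ 2 ≤ ∑ i, r i := by
      refine le_trans ?_ hsr
      have : 0 < n ^ 2 := by positivity
      nlinarith
    nlinarith
  have hb1 : F i ≤ 65 * ε * n := by
    have : F i / n ≤ 65 * ε := by
      have e1 : (F i + F j) / n = F i / n + F j / n := add_div _ _ _
      have e2 : 0 ≤ F j / n := div_nonneg (hFn j) hn0.le
      linarith [hun i j]
    rwa [div_le_iff₀ hn0] at this
  have hb2 : F j ≤ 65 * ε * n := by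
    have : F j / n ≤ 65 * ε := by
      have e1 : (F i + F j) / n = F i / n + F j / n := add_div _ _ _
      have e2 : 0 ≤ F i / n := div_nonneg (hFn i) hn0.le
      linarith [hun i j]
    rwa [div_le_iff₀ hn0] at this
  have hb3 : u i j ≤ 65 * ε := by
    have e2 : 0 ≤ (F i + F j) / n := div_nonneg (add_nonneg (hFn i) (hFn j)) hn0.le
    linarith
  have hDi : D i ≤ 65 * ε * n := by simp only [hF] at hb1; linarith [hD' i]
  have hDj : D j ≤ 65 * ε * n := by simp only [hF] at hb2; linarith [hD' j]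
  have hri : (1 / 4 + ε) * n - 65 * ε * n ≤ r i := by simp only [hF] at hb1; linarith [hDn i]
  have hrj : (1 / 4 + ε) * n - 65 * ε * n ≤ r j := by simp only [hF] at hb2; linarith [hDn j]
  refine ⟨i, ?_⟩
  -- the indicator of the union
  set y : V → ℝ := fun k => Real.cos (2 * (θ k - θ i)) with hy
  set w : V → ℝ := fun k => B i k + B j k - B i k * B j k with hw
  have hw01 : ∀ k, w k = 0 ∨ w k = 1 := by
    intro k
    simp only [hw]
    rcases hB01 i k with h | h <;> rcases hB01 j k with h' | h' <;> rw [h, h'] <;> norm_num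
  have hyle : ∀ k, y k ≤ 1 := fun k => Real.cos_le_one _
  have hyge : ∀ k, -1 ≤ y k := fun k => Real.neg_one_le_cos _
  have hpt : ∀ k, 1 - |y k| ≤ w k * (1 - y k) + (1 - w k) * (1 + y k) := by
    intro k
    rcases hw01 k with h | h <;> rw [h]
    · have := neg_abs_le (y k)
      linarith
    · have := le_abs_self (y k)
      linarith
  have hyi : ∀ k, 1 - y k ≤ 4 * u i k := by
    intro k
    have := one_sub_cos_two (θ k - θ i)
    rw [hus i k]
    exact this
  have hyj : ∀ k, 1 - y k ≤ 8 * u j k + 8 * u i j := by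
    intro k
    have := one_sub_cos_two' (θ k - θ j) (θ j - θ i)
    rw [show θ k - θ j + (θ j - θ i) = θ k - θ i by ring] at this
    rw [hus j k, hus i j]
    exact this
  have h1 : ∑ k, w k * (1 - y k) ≤ 911 * ε * n := by
    have e1 : ∀ k, w k * (1 - y k) ≤ 4 * (B i k * u i k) + (8 * (B j k * u j k) + 8 * u i j * B j k) := by
      intro k
      have e2 := hyi k
      have e3 := hyj k
      have e4 := hun i k
      have e5 := hun j k
      have e6 := hun i j
      have e7 := hyle k
      simp only [hw]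
      rcases hB01 i k with h | h <;> rcases hB01 j k with h' | h' <;> rw [h, h'] <;> nlinarith
    calc ∑ k, w k * (1 - y k) ≤ ∑ k, (4 * (B i k * u i k) + (8 * (B j k * u j k) + 8 * u i j * B j k)) :=
          Finset.sum_le_sum fun k _ => e1 k
      _ = 4 * D i + (8 * D j + 8 * u i j * r j) := by
          simp only [hDdef, hr, Finset.mul_sum, Finset.sum_add_distrib]
      _ ≤ 911 * ε * n := by
          have e2 : u i j * r j ≤ 65 * ε * ((1 / 4 + ε) * n) :=
            mul_le_mul hb3 (hD' j) (hr0 j) (by positivity)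
          have e3 : 65 * ε * ((1 / 4 + ε) * n) ≤ 65 * ε * (26 / 100 * n) := by
            refine mul_le_mul_of_nonneg_left ?_ (by positivity)
            nlinarith
          nlinarith [mul_pos hε0 hn0]
  -- the size of the union
  have h2 : ∑ k, B i k * B j k ≤ 130 * ε * n := by
    have e1 : ∀ k, B i k * B j k ≤ B i k * u i k + B j k * u j k := by
      intro k
      have e2 : 1 ≤ u i k + u j k := by
        have := overlap (θ k - θ i) (θ j - θ i) ε hε0.le hε (by
          have := hb3
          rw [hus i j] at this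
          exact this)
        rw [show θ k - θ i - (θ j - θ i) = θ k - θ j by ring] at this
        rw [hus i k, hus j k]
        exact this
      have e4 := hun i k
      have e5 := hun j k
      rcases hB01 i k with h | h <;> rcases hB01 j k with h' | h' <;> rw [h, h'] <;> linarith
    calc ∑ k, B i k * B j k ≤ ∑ k, (B i k * u i k + B j k * u j k) :=
          Finset.sum_le_sum fun k _ => e1 k
      _ = D i + D j := by rw [Finset.sum_add_distrib]
      _ ≤ 130 * ε * n := by linarith
  have h3 : (1 / 2 - 258 * ε) * n ≤ ∑ k, w k := by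
    have e1 : ∑ k, w k = r i + r j - ∑ k, B i k * B j k := by
      simp only [hw, hr, Finset.sum_sub_distrib, Finset.sum_add_distrib]
    rw [e1]
    linarith
  -- the sum of all `y`
  have h4 : ∑ k, y k ≤ √(5 * ε) * n := by
    have e1 : ∑ k, y k = Real.cos (2 * θ i) * (∑ k, Real.cos (2 * θ k)) +
        Real.sin (2 * θ i) * (∑ k, Real.sin (2 * θ k)) := by
      rw [Finset.mul_sum, Finset.mul_sum, ← Finset.sum_add_distrib]
      refine Finset.sum_congr rfl fun k _ => ?_
      simp only [hy]
      rw [mul_sub, Real.cos_sub]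
      ring
    set C2 := ∑ k, Real.cos (2 * θ k)
    set S2 := ∑ k, Real.sin (2 * θ k)
    have e2 : C2 ^ 2 + S2 ^ 2 ≤ 5 * ε * n ^ 2 := hOP
    have e3 : (Real.cos (2 * θ i) * C2 + Real.sin (2 * θ i) * S2) ^ 2 ≤ (√(5 * ε) * n) ^ 2 := by
      rw [mul_pow, Real.sq_sqrt (by positivity)]
      refine le_trans ?_ e2
      have e4 := Real.sin_sq_add_cos_sq (2 * θ i)
      nlinarith [sq_nonneg (Real.cos (2 * θ i) * S2 - Real.sin (2 * θ i) * C2)]
    rw [e1]
    exact (abs_le_of_sq_le_sq' e3 (by positivity)).2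
  have h5 : ∑ k, (1 - w k) * (1 + y k) = n - ∑ k, w k + ∑ k, y k - ∑ k, w k * y k := by
    have e1 : ∀ k, (1 - w k) * (1 + y k) = 1 - w k + y k - w k * y k := fun k => by ring
    simp only [e1, Finset.sum_sub_distrib, Finset.sum_add_distrib, Finset.sum_const,
      Finset.card_univ, nsmul_eq_mul, mul_one]
    rw [← hn]
  have h6 : ∑ k, w k * (1 - y k) = ∑ k, w k - ∑ k, w k * y k := by
    rw [← Finset.sum_sub_distrib]
    exact Finset.sum_congr rfl fun k _ => by ring
  calc ∑ k, (1 - |y k|) ≤ ∑ k, (w k * (1 - y k) + (1 - w k) * (1 + y k)) :=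
        Finset.sum_le_sum fun k _ => hpt k
    _ = ∑ k, w k * (1 - y k) + ∑ k, (1 - w k) * (1 + y k) := Finset.sum_add_distrib
    _ ≤ (2400 * ε + √(5 * ε)) * n := by
        rw [h5]
        rw [h6] at h1 ⊢
        nlinarith

end Pool.Agent.Q111.KU
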