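import Mathlib

/-!
# Project KU (helper111): the minimum degree threshold for global synchrony of Kuramoto oscillators

Row MP_2fe47b_co (standard; full answer: the threshold is strictly smaller than `3/4`).

Every graph with `n` vertices and minimum degree at least `(3/4 - 10^(-20)) n` is globally synchronizing.

Paper proof in short. Let `θ` be a local minimum, `B = 1 - A` the complement (with the diagonal),
`a = 1/4 + ε`. (LM) gives the equilibrium equations and the second order condition; (I1) is the second order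
condition for `cos θ` and `sin θ`. If `|∑ exp (i θ)| > a n`, all `θ` are in an open half circle, and (HP) all are
equal. Otherwise (B1) the first two order parameters are `O(√ε)` and almost all missing pairs are almost
antipodal; (ST), (CL): `θ` is close to four clusters of size about `n/4` at right angles. (A): the sum over the
edges of `cos - cos^2 + (x_i - x_j) sin (θ_i - θ_j)`, where `x_i` is the offset of `θ_i` from the centre of its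
cluster, is nonnegative by (I1) and the equilibrium equations, but it is negative unless all offsets are `0` and
there are no edges between opposite clusters. (FI): in this last case the energy decreases to the third
order if the clusters are rotated suitably.

Every `S_X : Prop` is a job; its docstring contains the complete proof.
-/

set_option autoImplicit false

namespace Pool.Agent.Q111.KU

open Finset

/-- a symmetric matrix with entries `0` and `1` -/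
structure IsA {V : Type} (A : V → V → ℝ) : Prop where
  val : ∀ i j, A i j = 0 ∨ A i j = 1
  symm : ∀ i j, A i j = A j i

/-- the energy -/
noncomputable def energy {V : Type} [Fintype V] (A : V → V → ℝ) (θ : V → ℝ) : ℝ :=
  (1 / 2) * ∑ i, ∑ j, A i j * (1 - Real.cos (θ i - θ j))

/-- the equilibrium equations -/
def Equi {V : Type} [Fintype V] (A : V → V → ℝ) (θ : V → ℝ) : Prop :=
  ∀ i, ∑ j, A i j * Real.sin (θ j - θ i) = 0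

/-- the second order condition -/
def Hess {V : Type} [Fintype V] (A : V → V → ℝ) (θ : V → ℝ) : Prop :=
  ∀ v : V → ℝ, 0 ≤ ∑ i, ∑ j, A i j * Real.cos (θ i - θ j) * (v i - v j) ^ 2

/-- the inequality (I) -/
def Ineq {V : Type} [Fintype V] (A : V → V → ℝ) (θ : V → ℝ) : Prop :=
  0 ≤ ∑ i, ∑ j, A i j * (Real.cos (θ i - θ j) - Real.cos (θ i - θ j) ^ 2)

/-- every vertex has at most `a n` missing neighbours -/
def Deg {V : Type} [Fintype V] (A : V → V → ℝ) (a : ℝ) : Prop :=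
  ∀ i, ∑ j, (1 - A i j) ≤ a * (Fintype.card V : ℝ)

/-- the square of the modulus of `∑ exp (i t_k)` -/
noncomputable def OP {V : Type} [Fintype V] (t : V → ℝ) : ℝ :=
  (∑ k, Real.cos (t k)) ^ 2 + (∑ k, Real.sin (t k)) ^ 2

/-- the size of a class -/
noncomputable def Nc {V : Type} [Fintype V] (a : V → ℤ) (c : ZMod 4) : ℝ :=
  ∑ k, if (a k : ZMod 4) = c then (1 : ℝ) else 0

/-- all classes have about `n/4` elements -/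
def Cla {V : Type} [Fintype V] (a : V → ℤ) : Prop :=
  ∀ c : ZMod 4, |Nc a c - (Fintype.card V : ℝ) / 4| ≤ (Fintype.card V : ℝ) / 10 ^ 4

/-- `z cos z - sin z` -/
noncomputable def kk (z : ℝ) : ℝ := z * Real.cos z - Real.sin z

/-- JOB LM. First and second order conditions at a local minimum.

PROOF. Fix `v` and let `f t = energy A (θ + t v)`; `f` has a local minimum at `0` (compose with the continuous
map `t ↦ θ + t v`). By the addition theorem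
`f t + f (-t) - 2 f 0 = ∑ i, ∑ j, A i j * cos (θ i - θ j) * (1 - cos (t (v i - v j)))`, it is `≥ 0` for small `t`;
divide by `t ^ 2 / 2` and let `t → 0` (`(1 - cos (t u)) / t ^ 2 → u ^ 2 / 2`). First order: for `v = Pi.single i 1`
the derivative of `f` at `0` is `∑ j, A i j * sin (θ i - θ j)` (`A` symmetric; terms `(i, j)` and `(j, i)`);
`IsLocalMin.hasDerivAt_eq_zero`. -/
def S_LM : Prop := ∀ (V : Type) [Fintype V] (A : V → V → ℝ) (θ : V → ℝ), (∀ i j, A i j = A j i) →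
  IsLocalMin (energy A) θ → Equi A θ ∧ Hess A θ

/-- JOB I1. `Hess` for `v = cos ∘ θ` and for `v = sin ∘ θ`; add:
`(cos θi - cos θj)^2 + (sin θi - sin θj)^2 = 2 - 2 cos (θi - θj)`. -/
def S_I1 : Prop := ∀ (V : Type) [Fintype V] (A : V → V → ℝ) (θ : V → ℝ), Hess A θ → Ineq A θ

/-- JOB HP. The case of a large order parameter.

PROOF. `C = ∑ cos θ`, `S = ∑ sin θ`, `n = card V`, `B = 1 - A`, `p i = C cos θi + S sin θi`,
`q i = S cos θi - C sin θi`; so `p i ^ 2 + q i ^ 2 = C ^ 2 + S ^ 2`, `∑ j, cos (θj - θi) = p i`,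
`∑ j, sin (θj - θi) = q i`. (1) `p i > 0`: `Hess` for `v = Pi.single i 1` gives `∑ j, A i j cos (θj - θi) ≥ 0`, so
`p i ≥ ∑ j, B i j cos (θj - θi)`, and `Equi` gives `q i = ∑ j, B i j sin (θj - θi)`. If `p i ≤ 0`, then
`p i ^ 2 + q i ^ 2 ≤ (∑ B cos) ^ 2 + (∑ B sin) ^ 2 ≤ (∑ j, B i j) ^ 2 ≤ (a n) ^ 2` (Cauchy-Schwarz), a
contradiction. (2) Identity `(q i - q j) sin (θj - θi) = (p i + p j) (1 - cos (θi - θj))` (expand). `Equi` gives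
`∑ i, ∑ j, A i j q i sin (θj - θi) = 0`, and by symmetry also with `q j`; so
`∑ i, ∑ j, A i j (p i + p j) (1 - cos (θi - θj)) = 0`, all terms are `≥ 0`, so `cos (θi - θj) = 1` if `A i j = 1`.
(3) For all `i, k` there is a `j` with `A i j = A k j = 1`, since `∑ j, (B i j + B k j) ≤ 2 a n < n`. So
`cos (θi - θk) = 1` (`cos x = cos y = 1` implies `sin x = sin y = 0`, `cos (x - y) = 1`). -/
def S_HP : Prop := ∀ (V : Type) [Fintype V] (A : V → V → ℝ) (θ : V → ℝ) (a : ℝ), IsA A → Equi A θ →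
  Hess A θ → Deg A a → a < 1 / 2 → (a * (Fintype.card V : ℝ)) ^ 2 < OP θ →
  ∀ i j, Real.cos (θ i - θ j) = 1

/-- JOB B1. The case of a small order parameter.

PROOF. `n = card V` (if `n = 0` all is trivial), `B = 1 - A`, `a = 1/4 + ε`, `C, S, p, q` as in `S_HP`,
`C2 = ∑ cos (2 θ)`, `S2 = ∑ sin (2 θ)`, `T = √(C2 ^ 2 + S2 ^ 2) ≤ n`. (1) `∑ i, ∑ j, cos (θi - θj) = C^2 + S^2`,
`∑ i, ∑ j, cos (θi - θj)^2 = n^2/2 + (C2^2 + S2^2)/2`. So `Ineq` says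
`n^2/2 + T^2/2 - OP θ ≤ ∑ i, ∑ j, B i j (cos^2 - cos)`. (2) Identity
`cos^2 - cos = 2 - (3/2) sin^2 - (1 + cos)^2/2`. (3) `q i = ∑ j, B i j sin (θj - θi)` (from `Equi`), so
`q i ^ 2 ≤ (∑ j, B i j) (∑ j, B i j sin^2) ≤ a n ∑ j, B i j sin^2`. (4)
`∑ i, q i ^ 2 = (n/2) (C^2+S^2) + (C2/2)(S^2 - C^2) - S C S2 ≥ (n - T)/2 * (C^2 + S^2)` (Cauchy-Schwarz:
`((S^2-C^2)/2)^2 + (S C)^2 = ((C^2+S^2)/2)^2`). (5) With `R = OP θ / n^2 ≤ a^2`, `P = T / n ≤ 1`: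
`1/2 + P^2/2 + (3/(4a)) (1 - P) R ≤ R + 2 a`, `3/(4a) ≥ 2.98`. If `P ≤ 1/2`: `P^2/2 + 0.49 R ≤ 2 ε`. If
`P > 1/2`: `P^2/2 - R ≤ 2 ε` (as `2.98 (1 - P) - 1 ≥ -1`), `R ≤ 0.064`, a contradiction. So `R ≤ 5 ε`, `P^2 ≤ 5 ε`.
(6) By (1) `n^2 (1/2 - 5 ε) ≤ ∑∑ B (cos^2 - cos) ≤ 2 ∑∑ B`, and
`∑∑ B (1 + cos) ≤ ∑∑ B (2 - cos)(1 + cos) = ∑∑ B (2 - (cos^2 - cos)) ≤ 2 a n^2 - n^2 (1/2 - 5 ε) = 7 ε n^2`. -/
def S_B1 : Prop := ∀ (V : Type) [Fintype V] (A : V → V → ℝ) (θ : V → ℝ) (ε : ℝ), IsA A → Equi A θ →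
  Ineq A θ → 0 < ε → ε ≤ 1 / 1000 → Deg A (1 / 4 + ε) →
  OP θ ≤ ((1 / 4 + ε) * (Fintype.card V : ℝ)) ^ 2 →
  OP θ ≤ 5 * ε * (Fintype.card V : ℝ) ^ 2 ∧ OP (fun k => 2 * θ k) ≤ 5 * ε * (Fintype.card V : ℝ) ^ 2 ∧
  ∑ i, ∑ j, (1 - A i j) * (1 + Real.cos (θ i - θ j)) ≤ 7 * ε * (Fintype.card V : ℝ) ^ 2 ∧
  (1 / 4 - 5 / 2 * ε) * (Fintype.card V : ℝ) ^ 2 ≤ ∑ i, ∑ j, (1 - A i j)

/-- JOB ST. Most of the points are close to one of four points at right angles.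

PROOF. `n = card V`, `B = 1 - A`, `a = 1/4 + ε`, `u i j = 1 + cos (θi - θj) ≥ 0`. Let
`D i = ∑ k, B i k * u i k`, `b i = a n - ∑ k, B i k ≥ 0`; `∑ D ≤ 7 ε n^2`, `∑ b ≤ 3.5 ε n^2`. Let
`W i j = (D i + b i + D j + b j)/n + u i j`. Then
`∑∑ B i j W i j = (2/n) ∑ i, (D i + b i) (∑ j, B i j) + ∑∑ B u ≤ 2 a (10.5 ε) n^2 + 7 ε n^2 ≤ 13 ε n^2`, and
`∑∑ B ≥ n^2/5`; so there are `i, j` with `B i j = 1` and `W i j ≤ 65 ε`. Fix them: `D i, b i, D j, b j ≤ 65 ε n`,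
`u i j ≤ 65 ε`. Let `y k = cos (2 (θk - θi))`, `1 - y k = 2 sin (θk - θi)^2 ≤ 4 (1 + cos (θk - θi)) = 4 u i k`, and
(with `sin (x + y)^2 ≤ 2 sin x^2 + 2 sin y^2`) `1 - y k ≤ 8 u j k + 8 u i j`. Let `M = {k | B i k = 1}`,
`M' = {k | B j k = 1}`, `U = M ∪ M'`. `∑_U (1 - y k) ≤ 4 D i + 8 D j + 8 u i j a n ≤ 911 ε n`. On `M ∩ M'`:
`u i k + u j k = 2 + cos α (1 + cos β) + sin α sin β ≥ 2 - u i j - |sin β| ≥ 1` (`α = θk - θi`, `β = θj - θi`,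
`sin β^2 ≤ 2 u i j`), so `|M ∩ M'| ≤ D i + D j ≤ 130 ε n`, `|U| ≥ 2 (a n - 65 ε n) - 130 ε n ≥ (1/2 - 258 ε) n`.
Finally `∑_all y k = C2 cos (2 θi) + S2 sin (2 θi) ≤ √(5 ε) n`, so
`∑_{k ∉ U} (1 + y k) = n - |U| + ∑_all y - ∑_U y ≤ n - 2 |U| + √(5 ε) n + 911 ε n ≤ (1427 ε + √(5 ε)) n`. Since
`1 - |y| ≤ 1 - y` and `1 - |y| ≤ 1 + y`, we are done. -/
def S_ST : Prop := ∀ (V : Type) [Fintype V] (A : V → V → ℝ) (θ : V → ℝ) (ε : ℝ), IsA A →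
  0 < Fintype.card V → 0 < ε → ε ≤ 1 / 10 ^ 4 → Deg A (1 / 4 + ε) →
  OP (fun k => 2 * θ k) ≤ 5 * ε * (Fintype.card V : ℝ) ^ 2 →
  ∑ i, ∑ j, (1 - A i j) * (1 + Real.cos (θ i - θ j)) ≤ 7 * ε * (Fintype.card V : ℝ) ^ 2 →
  (1 / 4 - 5 / 2 * ε) * (Fintype.card V : ℝ) ^ 2 ≤ ∑ i, ∑ j, (1 - A i j) →
  ∃ i, ∑ k, (1 - |Real.cos (2 * (θ k - θ i))|) ≤ (2400 * ε + √(5 * ε)) * (Fintype.card V : ℝ)

/-- JOB CL. The classes.

PROOF. `n = card V`. Let `a k` be the nearest integer to `(θk - θi)/(π/2)` (`round`), `w k = θk - θi - a k π/2`,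
`|w k| ≤ π/4`. `|cos (2 (θk - θi))| = |cos (a k π + 2 w k)| = cos (2 w k) = 1 - 2 sin (w k)^2`, and
`sin (w)^2 ≥ (4/π^2) w^2 ≥ 0.4 w^2` (`Real.mul_le_sin`). So `∑ w^2 ≤ (3/8) 10^(-9) n`, and (Cauchy-Schwarz)
`∑ |w| ≤ 2 * 10^(-5) n`. Let `c = (∑ w)/n`, `x k = w k - c`, `φ = θi + c`. `|c| ≤ 2 * 10^(-5)`,
`|x k| ≤ π/4 + |c| ≤ 4/5`, `∑ x^2 = ∑ w^2 - n c^2`. Class sizes, with `N0, ..., N3`:
`∑ cos (θk - θi) = ∑ cos (a k π/2 + w k)` differs from `N0 - N2` by at most `∑ |w|`, and its absolute value is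
at most `√(OP θ) ≤ 10^(-6) n`; the same for `sin`: `N1 - N3`; and `∑ cos (2 (θk - θi))` differs from
`N0 + N2 - N1 - N3` by at most `2 ∑ |w|`. And `N0 + N1 + N2 + N3 = n`. So
`|Nc - n/4| ≤ (1/4) (10^(-6) n + 2 ∑ |w|) + (1/2) (10^(-6) n + ∑ |w|) ≤ 10^(-4) n`. -/
def S_CL : Prop := ∀ (V : Type) [Fintype V] (θ : V → ℝ) (i : V),
  ∑ k, (1 - |Real.cos (2 * (θ k - θ i))|) ≤ 3 / 10 ^ 10 * (Fintype.card V : ℝ) →
  OP θ ≤ (Fintype.card V : ℝ) ^ 2 / 10 ^ 12 →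
  OP (fun k => 2 * θ k) ≤ (Fintype.card V : ℝ) ^ 2 / 10 ^ 12 →
  ∃ (φ : ℝ) (a : V → ℤ) (x : V → ℝ), (∀ k, θ k = φ + a k * (Real.pi / 2) + x k) ∧
    (∀ k, |x k| ≤ 4 / 5) ∧ ∑ k, x k = 0 ∧ ∑ k, x k ^ 2 ≤ (Fintype.card V : ℝ) / 10 ^ 9 ∧ Cla a

/-- JOB P0. PROOF. `cos z (1 - cos z) ≤ z^2/2` (if `cos z ≤ 0` it is `≤ 0`, else `1 - cos z ≤ z^2/2`,
`Real.one_sub_sq_div_two_le_cos`), `z sin z ≤ z^2`. -/
def S_P0 : Prop := ∀ z : ℝ, Real.cos z - Real.cos z ^ 2 + z * Real.sin z ≤ 3 / 2 * z ^ 2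

/-- JOB P1. PROOF. `z = y - x`, `|z| ≤ 8/5`. (a) `sin z ^ 2 = (1 - cos 2z)/2 ≥ z^2 - z^4/3`
(`cos t ≤ 1 - t^2/2 + t^4/24`, `Real.cos_le_one_sub_sq_add...` or Taylor; or from `sin z ≥ z - z^3/6` for `z ≥ 0`). If
`z^2 ≤ 69/100` this is at least `(77/100) z^2`. If `z^2 > 69/100`, then `|z| > 0.83`, so (as `|x|, |y| ≤ 4/5`)
`|x|, |y| ≥ 0.03` and one of them is `≥ 0.415`; so `x^2 y^2 ≥ 0.00015`; moreover `x y < 0` (otherwise `|z| ≤ 4/5`)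
and `|x| + |y| > 0.83` gives `|x||y| ≥ 0.03 * 0.8 = 0.024`, `3500 x^2 y^2 ≥ 2.016 ≥ (77/100) z^2`
(`(77/100) z^2 ≤ 1.98`). (b) Identity: `kk z = kk y - kk x + (cos x - 1) kk y - (cos y - 1) kk x + z sin x sin y`, and
`|kk t| ≤ |t|^3/3`, `|cos t - 1| ≤ t^2/2`, so `kk z ≤ kk y - kk x + 2 |x| |y| (|x| + |y|)`. -/
def S_P1 : Prop := ∀ x y : ℝ, |x| ≤ 4 / 5 → |y| ≤ 4 / 5 →
  kk (y - x) - Real.sin (y - x) ^ 2 ≤ -(77 / 100) * (y - x) ^ 2 + 3500 * (x ^ 2 * y ^ 2) + (kk y - kk x) +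
    2 * (|x| * |y| * (|x| + |y|))

/-- JOB P2. PROOF. `z = y - x`, `p = |x|`, `q = |y|`, `|z| ≤ p + q ≤ 8/5`. (1) `sin z ^ 2 ≤ z^2`,
`- kk z ≤ |z|^3/3`, and `(p+q)^2 + (p+q)^3/3 ≤ (12/5)(p^2+q^2) + 10 p^2 q^2`: with `s = p + q`, `t = p q ≤ s^2/4` the
difference is `1.4 s^2 - 4.8 t - s^3/3 + 10 t^2`; for `t ≤ s^2/4`: if `s ≤ 0.98` it is decreasing in `t` up to
`t = 0.24 ≥ s^2/4`, so it is at least `0.2 s^2 - s^3/3 + (5/8) s^4 ≥ 0`; if `s ≥ 0.98` it is at least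
`1.4 s^2 - s^3/3 - 0.576 ≥ 0` (`0.98 ≤ s ≤ 1.6`). (2) `cos z + cos z^2 + z sin z ≥ 2 - z^2/2`: let
`m = 1 - z^2/2 ≤ cos z`; `z sin z ≥ z^2 - z^4/6`. If `m ≥ 0`, `cos z^2 ≥ m^2` and the sum is
`≥ 2 - z^2/2 + z^4/12`. If `m < 0` (`z^2 > 2`) use `cos z^2 ≥ 0`: `m + z^2 - z^4/6 ≥ 2 - z^2/2` iff
`z^2 - 1 - z^4/6 ≥ 0`, true for `2 ≤ z^2 ≤ 2.56`. Finally `2 - z^2/2 ≥ 2 - (x^2+y^2)/2 - |x y|` and
`x^2 + y^2 ≤ 0.64 + x^2 y^2/0.64` (`(0.64 - x^2)(0.64 - y^2) ≥ 0`). (3) `|kk x| ≤ |x|^3/3 ≤ x^2`. -/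
def S_P2 : Prop := ∀ x y : ℝ, |x| ≤ 4 / 5 → |y| ≤ 4 / 5 →
  -(kk (y - x) - Real.sin (y - x) ^ 2) ≤ 12 / 5 * (x ^ 2 + y ^ 2) + 10 * (x ^ 2 * y ^ 2) ∧
  -Real.cos (y - x) - Real.cos (y - x) ^ 2 - (y - x) * Real.sin (y - x) ≤
    -(1 / 20) - 12 / 5 * (x ^ 2 + y ^ 2) + 8 * (x ^ 2 * y ^ 2) ∧
  |kk x| ≤ x ^ 2

/-- JOB A (from P0, P1, P2). Rigidity.

PROOF. `n = card V`, `B = 1 - A`, `cl k = (a k : ZMod 4)`, `P c i j = 1` if `cl j = cl i + c` and `0` otherwise,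
`X = x i`, `Y = x j`, `z = Y - X`. `h i j = cos (θi - θj) - cos (θi - θj)^2 + (X - Y) sin (θi - θj)`. By `Ineq` and
`Equi` (multiply by `x i`, sum; symmetry) `0 ≤ ∑∑ A i j h i j`. As `θj - θi = (a j - a i) π/2 + z`:
`h = cos z - cos z^2 + z sin z` (`cl j = cl i`), `h = kk z - sin z^2` (`cl j = cl i + 1`),
`h = - cos z - cos z^2 - z sin z` (`cl j = cl i + 2`), `h = kk (-z) - sin (-z)^2` (`cl j = cl i + 3`). By P0, P1, P2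
(`A h = h - B h`), in all cases
`A i j h i j ≤ P0 (3/2) z^2 - (77/100) (P1 + P3) z^2 + P1 (kk Y - kk X) + P3 (kk X - kk Y)
  - (12/5) P2 (X^2 + Y^2) + (12/5) B (X^2 + Y^2) - (1/20) A P2 + 3600 X^2 Y^2 + 2 |X||Y| (|X| + |Y|)`.
Sum over all `i, j`, with `s = ∑ x^2`, `β = 10^(-4)`: `∑∑ B (X^2+Y^2) ≤ 2 (1/4 + ε) n s`;
`∑∑ P2 (X^2+Y^2) = 2 ∑ i, x i^2 Nc (cl i + 2) ≥ 2 (1/4 - β) n s`; `∑∑ P0 z^2 ≤ 2 (1/4 + β) n s` (as `∑∑ P0 X Y ≥ 0`,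
a sum of squares over the classes); `∑∑ (P1 + P3) z^2 ≥ 4 (1/4 - β) n s` as `∑∑ (P1 + P3) X Y ≤ 0`: with
`u i = ±1` for `cl i` even or odd, `P1 + P3 = (1 - u i u j)/2`, and `∑ x = 0`; `∑∑ P1 (kk Y - kk X)` and
`∑∑ P3 (kk X - kk Y)` are `∑ k, kk (x k) (Nc (cl k - 1) - Nc (cl k + 1)) ≤ 2 β n s` (`|kk x| ≤ x^2`);
`∑∑ X^2 Y^2 = s^2 ≤ 10^(-9) n s`; `∑∑ 2 |X||Y|(|X|+|Y|) = 4 s ∑ |x| ≤ 4 β n s` (`∑ |x| ≤ √(n s) ≤ β n`). The total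
is `≤ n s (-0.02 + 0.0025) - (1/20) ∑∑ A P2`. So `s = 0` and `A P2 = 0`. -/
def S_A : Prop := ∀ (V : Type) [Fintype V] (A : V → V → ℝ) (θ : V → ℝ) (ε φ : ℝ) (a : V → ℤ)
  (x : V → ℝ), IsA A → Equi A θ → Ineq A θ → ε ≤ 1 / 10 ^ 5 → Deg A (1 / 4 + ε) →
  (∀ k, θ k = φ + a k * (Real.pi / 2) + x k) → (∀ k, |x k| ≤ 4 / 5) → ∑ k, x k = 0 →
  ∑ k, x k ^ 2 ≤ (Fintype.card V : ℝ) / 10 ^ 9 → Cla a →
  (∀ k, x k = 0) ∧ ∀ i j, (a j : ZMod 4) = (a i : ZMod 4) + 2 → A i j = 0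

/-- JOB FI. Four clusters at right angles.

PROOF. `n = card V > 0`, `cl k = (a k : ZMod 4)`, `dp i = ∑ j, A i j [cl j = cl i + 1]`,
`dm i = ∑ j, A i j [cl j = cl i + 3]`. `Equi`: `dp i = dm i` (`sin (θj - θi) = 0, 1, 0, -1`). Let
`e c = ∑ i, [cl i = c] dp i`; by symmetry `e c = ∑ j, [cl j = c + 1] dm j = e (c + 1)`, so all are equal to `e`. For
real `t` let `θ' k = θ k - t * (cl k).val` (`0, -t, -2t, -3t`). For `A i j = 1`: if `cl j = cl i` then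
`1 - cos (θ'i - θ'j) = 0`; if `cl j = cl i + 1 = c + 1`, then `1 - cos (θ'j - θ'i) = 1 - cos (π/2 + z c) = 1 + sin (z c)`
with `z c = -t` for `c = 0, 1, 2` and `z 3 = 3 t`; `cl j = cl i + 2` does not occur; `cl j = cl i + 3` is symmetric. So
`energy A θ' = ∑ c, e c (1 + sin (z c)) = e (4 - 3 sin t + sin 3t) = 4 e (1 - sin t ^ 3)`. `e > 0`: for any `i`,
`∑ j, (1 - A i j) [cl j = cl i + 1] + Nc (cl i + 2) ≤ ∑ j, (1 - A i j) ≤ (1/4 + ε) n`, so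
`dp i ≥ Nc (cl i + 1) + Nc (cl i + 2) - (1/4 + ε) n > 0`. As `t → 0+` the point `θ'` tends to `θ` and the energy is
smaller. -/
def S_FI : Prop := ∀ (V : Type) [Fintype V] (A : V → V → ℝ) (θ : V → ℝ) (ε φ : ℝ) (a : V → ℤ),
  0 < Fintype.card V → IsA A → Equi A θ → ε ≤ 1 / 10 ^ 5 → Deg A (1 / 4 + ε) →
  (∀ k, θ k = φ + a k * (Real.pi / 2)) → Cla a →
  (∀ i j, (a j : ZMod 4) = (a i : ZMod 4) + 2 → A i j = 0) → ¬ IsLocalMin (energy A) θ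

end Pool.Agent.Q111.KU
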